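import Pool.Agent.H.MP_97563e_nt.B

set_option autoImplicit false

namespace Pool.Agent.Results.MP_97563e_nt.No
open Pool.Agent.H.MP_97563e_nt

theorem result : ∃ L L' : Matrix (Fin 3) (Fin 3) ℝ, L.det ≠ 0 ∧ L'.det ≠ 0 ∧ ¬ Equivalent L L' ∧
    ∃ f : (Fin 3 → ℝ) ≃ₜ (Fin 3 → ℝ), f '' sail L = sail L' ∧
      (∀ d F, Face L d F ↔ Face L' d (f '' F)) ∧
      (∀ F, Face L 2 F → (∃ a, HasArea F a ∧ HasArea (f '' F) a) ∧
        ∃ c, HasDist F c ∧ HasDist (f '' F) c) ∧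
      (∀ e, Face L 1 e → len e = len (f '' e)) ∧
      ∀ F e e', Face L 2 F → Face L 1 e → Face L 1 e' → e ⊆ F → e' ⊆ F →
        ang F e e' = ang (f '' F) (f '' e) (f '' e') :=
  ⟨M 1, M 2, by simp [M, Matrix.det_fin_three], by simp [M, Matrix.det_fin_three], not_equiv,
    φ.toHomeomorph, φsail, face_iff, fun _ h => ⟨area_eq h, dist_eq h⟩, fun _ => len_eq,
    fun _ _ _ h _ _ => ang_eq h⟩

end Pool.Agent.Results.MP_97563e_nt.No
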